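import Mathlib

/-!
# Twice semidifferentiable piecewise quadratic functions are piecewise linear-quadratic
-/

open Filter Topology Set

noncomputable section

namespace Pool.Agent.Results.MP_83d7ff_an.TwiceSemidifferentiable

variable {E : Type*} [NormedAddCommGroup E] [NormedSpace ℝ E]

/-- `q(x) = ½ B(x, x) + b(x) + c` with a (continuous) bilinear form `B`, a linear form `b` and a
constant `c`: a polynomial of degree at most two. -/
def IsQuadratic (q : E → ℝ) : Prop :=
  ∃ (B : E →L[ℝ] E →L[ℝ] ℝ) (b : E →L[ℝ] ℝ) (c : ℝ), ∀ x, q x = (1 / 2) * B x x + b x + c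

/-- `f` is piecewise quadratic (PQ): continuous, and at every point equal to one of finitely many
quadratic functions. -/
def IsPQ (f : E → ℝ) : Prop :=
  Continuous f ∧ ∃ (I : ℕ) (q : Fin I → E → ℝ), (∀ i, IsQuadratic (q i)) ∧ ∀ x, ∃ i, f x = q i x

/-- A polyhedron: a finite intersection of closed half-spaces. -/
def IsPolyhedron (P : Set E) : Prop :=
  ∃ (m : ℕ) (a : Fin m → E →L[ℝ] ℝ) (β : Fin m → ℝ), P = {x | ∀ j, a j x ≤ β j}

/-- `f` is piecewise linear-quadratic (PLQ): the space is a finite union of polyhedra on each of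
which `f` is a quadratic function. -/
def IsPLQ (f : E → ℝ) : Prop :=
  ∃ (I : ℕ) (q : Fin I → E → ℝ) (P : Fin I → Set E), (∀ i, IsQuadratic (q i)) ∧
    (∀ i, IsPolyhedron (P i)) ∧ (⋃ i, P i) = univ ∧ ∀ i, ∀ x ∈ P i, f x = q i x

/-- `f` is twice semidifferentiable at `x`: the limits
`df(v) = lim_{v' → v, τ ↓ 0} (f(x + τ v') - f(x)) / τ` exist in `ℝ` for all `v`, and the limits
`lim_{w' → w, τ ↓ 0} (f(x + τ w') - f(x) - τ df(w')) / τ²` exist in `ℝ` for all `w`. -/
def TwiceSemidifferentiableAt (f : E → ℝ) (x : E) : Prop :=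
  ∃ df : E → ℝ,
    (∀ v, Tendsto (fun p : ℝ × E => (f (x + p.1 • p.2) - f x) / p.1)
      (𝓝[>] 0 ×ˢ 𝓝 v) (𝓝 (df v))) ∧
    ∀ w, ∃ L : ℝ, Tendsto (fun p : ℝ × E => (f (x + p.1 • p.2) - f x - p.1 * df p.2) / p.1 ^ 2)
      (𝓝[>] 0 ×ˢ 𝓝 w) (𝓝 L)

/-! ### Quadratic functions with a symmetric form -/

variable (E) in
/-- A quadratic function given by a symmetric form. -/
structure Quad where
  B : E →L[ℝ] E →L[ℝ] ℝ
  symm : ∀ x y, B x y = B y x
  b : E →L[ℝ] ℝ
  c : ℝ

namespace Quad

/-- value -/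
def ev (q : Quad E) (x : E) : ℝ := (1 / 2) * q.B x x + q.b x + q.c

/-- derivative -/
def D (q : Quad E) (x : E) : E →L[ℝ] ℝ := q.B x + q.b

lemma ev_add (q : Quad E) (x v : E) :
    q.ev (x + v) = q.ev x + q.D x v + (1 / 2) * q.B v v := by
  simp only [ev, D, map_add, add_apply]
  rw [q.symm v x]
  ring

lemma ev_add_smul (q : Quad E) (x v : E) (t : ℝ) :
    q.ev (x + t • v) = q.ev x + t * q.D x v + (1 / 2) * t ^ 2 * q.B v v := by
  rw [ev_add]
  simp only [map_smul, smul_eq_mul, FunLike.coe_smul, Pi.smul_apply]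
  ring

lemma D_add_smul (q : Quad E) (x v : E) (t : ℝ) :
    q.D (x + t • v) = q.D x + t • q.B v := by
  simp only [D, map_add, map_smul]
  abel

lemma continuous_ev (q : Quad E) : Continuous q.ev := by
  unfold ev
  fun_prop

lemma eq_zero_of_open (q : Quad E) {O : Set E} (hO : IsOpen O) {x : E} (hx : x ∈ O)
    (h : ∀ y ∈ O, q.ev y = 0) (v : E) : q.B v v = 0 ∧ q.D x v = 0 := by
  have hc : Continuous fun t : ℝ => x + t • v := by fun_prop
  have h1 : ∀ᶠ t : ℝ in 𝓝 0, x + t • v ∈ O := by
    apply hc.continuousAt.eventually_mem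
    simpa using hO.mem_nhds hx
  obtain ⟨ε, hε, hb⟩ := Metric.eventually_nhds_iff_ball.1 h1
  have e1 := h _ (hb (ε / 2) (by simp [abs_of_pos hε]; linarith))
  have e2 := h _ (hb (-(ε / 2)) (by simp [abs_of_pos hε]; linarith))
  rw [ev_add_smul, h x hx] at e1 e2
  have hB : q.B v v = 0 := by
    have : ε ^ 2 * q.B v v = 0 := by nlinarith
    rcases mul_eq_zero.1 this with h | h
    · exact absurd h (by positivity)
    · exact h
  refine ⟨hB, ?_⟩
  rw [hB] at e1
  have : ε / 2 * q.D x v = 0 := by linarith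
  rcases mul_eq_zero.1 this with h | h
  · exact absurd h (by positivity)
  · exact h

end Quad

lemma IsQuadratic.exists_quad {g : E → ℝ} (hg : IsQuadratic g) :
    ∃ q : Quad E, ∀ x, g x = q.ev x := by
  obtain ⟨B, b, c, h⟩ := hg
  refine ⟨⟨(1 / 2 : ℝ) • (B + B.flip), ?_, b, c⟩, fun x => ?_⟩
  · intro x y
    simp only [FunLike.coe_smul, FunLike.coe_add, Pi.smul_apply, Pi.add_apply,
      ContinuousLinearMap.flip_apply, smul_eq_mul]
    ring
  · rw [h]
    simp only [Quad.ev, FunLike.coe_smul, FunLike.coe_add, Pi.smul_apply, Pi.add_apply,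
      ContinuousLinearMap.flip_apply, smul_eq_mul]
    ring

lemma IsQuadratic.sub {g g' : E → ℝ} (hg : IsQuadratic g) (hg' : IsQuadratic g') :
    IsQuadratic (fun x => g x - g' x) := by
  obtain ⟨B, b, c, h⟩ := hg
  obtain ⟨B', b', c', h'⟩ := hg'
  refine ⟨B - B', b - b', c - c', fun x => ?_⟩
  show g x - g' x = _
  rw [h, h']
  simp only [FunLike.coe_sub, Pi.sub_apply]
  ring

lemma IsQuadratic.continuous {g : E → ℝ} (hg : IsQuadratic g) : Continuous g := by
  obtain ⟨q, hq⟩ := hg.exists_quad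
  rw [funext hq]
  exact q.continuous_ev

lemma IsQuadratic.eq_of_open {g g' : E → ℝ} (hg : IsQuadratic g) (hg' : IsQuadratic g')
    {O : Set E} (hO : IsOpen O) (hne : O.Nonempty) (h : ∀ y ∈ O, g y = g' y) : g = g' := by
  obtain ⟨q, hq⟩ := (hg.sub hg').exists_quad
  obtain ⟨x, hx⟩ := hne
  have h0 : ∀ y ∈ O, q.ev y = 0 := fun y hy => by rw [← hq, h y hy, sub_self]
  funext y
  obtain ⟨e1, e2⟩ := q.eq_zero_of_open hO hx h0 (y - x)
  have h1 := q.ev_add x (y - x)
  rw [add_sub_cancel, e1, e2, h0 x hx, ← hq] at h1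
  linarith

/-- the difference of `g` and `g'` is a product of two affine functions -/
def Splits (g g' : E → ℝ) : Prop :=
  ∃ (a a' : E →L[ℝ] ℝ) (β β' : ℝ), ∀ x, g x - g' x = (a x + β) * (a' x + β')

/-! ### The two sides of a regular interface -/

/-- If `f = qa` on the side `h > 0` and `f = qb` on the side `h < 0` near a point `x` of the
regular zero set of `h`, and `f` is twice semidifferentiable at `x`, then the difference of `qa`
and `qb` splits. -/
lemma splits_of_interface {f : E → ℝ} {x : E} (hf : TwiceSemidifferentiableAt f x)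
    (h qa qb : Quad E) (hx : h.ev x = 0) {e : E} (he : h.D x e = 1)
    (ha : f x = qa.ev x) (hb : f x = qb.ev x) {r : ℝ} (hr : 0 < r)
    (hpos : ∀ y ∈ Metric.ball x r, 0 < h.ev y → f y = qa.ev y)
    (hneg : ∀ y ∈ Metric.ball x r, h.ev y < 0 → f y = qb.ev y) :
    ∃ (a a' : E →L[ℝ] ℝ) (β β' : ℝ), ∀ y, qa.ev y - qb.ev y = (a y + β) * (a' y + β') := by
  obtain ⟨df, hdf, hL⟩ := hf
  -- general computation along a curve
  have key : ∀ (σ : ℝ) (q : Quad E), f x = q.ev x →
      (∀ y ∈ Metric.ball x r, 0 < σ * h.ev y → f y = q.ev y) →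
      (∀ w, 0 < σ * h.D x w → df w = q.D x w) ∧
      (∀ w M, h.D x w = 0 → 0 < σ * (M + (1 / 2) * h.B w w) →
        df w = q.D x w ∧ ((∀ τ : ℝ, 0 < τ → 0 < σ * M * τ) → ∀ L : ℝ,
          Tendsto (fun p : ℝ × E => (f (x + p.1 • p.2) - f x - p.1 * df p.2) / p.1 ^ 2)
            (𝓝[>] 0 ×ˢ 𝓝 w) (𝓝 L) → L = (1 / 2) * q.B w w)) := by
    intro σ q hq hside
    have hball : ∀ (c : ℝ → E), Continuous c → ∀ᶠ τ : ℝ in 𝓝[>] 0, x + τ • c τ ∈
        Metric.ball x r := by
      intro c hc
      have h1 : Continuous fun τ : ℝ => x + τ • c τ := by fun_prop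
      have h2 : ∀ᶠ τ : ℝ in 𝓝 0, x + τ • c τ ∈ Metric.ball x r := by
        apply h1.continuousAt.eventually_mem
        simpa using Metric.ball_mem_nhds x hr
      exact nhdsWithin_le_nhds h2
    have hcurve : ∀ (c : ℝ → E), Continuous c → Tendsto (fun τ : ℝ => (τ, c τ)) (𝓝[>] 0)
        (𝓝[>] 0 ×ˢ 𝓝 (c 0)) := by
      intro c hc
      exact tendsto_id.prodMk (hc.continuousAt.tendsto.mono_left nhdsWithin_le_nhds)
    have hfirst : ∀ w, 0 < σ * h.D x w → df w = q.D x w := by
      intro w hw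
      have h1 := (hdf w).comp (hcurve (fun _ => w) continuous_const)
      have h2 : Tendsto (fun τ : ℝ => q.D x w + (1 / 2) * τ * q.B w w) (𝓝[>] 0)
          (𝓝 (q.D x w + (1 / 2) * 0 * q.B w w)) :=
        ((by fun_prop : Continuous fun τ : ℝ => q.D x w + (1 / 2) * τ * q.B w w).tendsto
          0).mono_left nhdsWithin_le_nhds
      simp only [mul_zero, zero_mul, add_zero] at h2
      refine tendsto_nhds_unique h1 (h2.congr' ?_)
      have h3 : ∀ᶠ τ : ℝ in 𝓝[>] 0, 0 < σ * (h.D x w + (1 / 2) * τ * h.B w w) := by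
        have hc : Continuous fun τ : ℝ => σ * (h.D x w + (1 / 2) * τ * h.B w w) := by fun_prop
        exact nhdsWithin_le_nhds (hc.continuousAt.eventually (lt_mem_nhds (by simpa using hw)))
      filter_upwards [h3, hball (fun _ => w) continuous_const, self_mem_nhdsWithin]
        with τ h3 h4 h5
      have h5' : (0 : ℝ) < τ := h5
      have h6 : f (x + τ • w) = q.ev (x + τ • w) := by
        apply hside _ h4
        rw [h.ev_add_smul, hx]
        have : σ * (0 + τ * h.D x w + 1 / 2 * τ ^ 2 * h.B w w)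
            = τ * (σ * (h.D x w + (1 / 2) * τ * h.B w w)) := by ring
        rw [this]
        exact mul_pos h5' h3
      simp only [Function.comp]
      rw [h6, hq, q.ev_add_smul]
      field_simp
      ring
    refine ⟨hfirst, ?_⟩
    intro w M hw hM
    set c : ℝ → E := fun τ => w + (M * τ) • e with hc
    have hcc : Continuous c := by rw [hc]; fun_prop
    have hc0 : c 0 = w := by simp [hc]
    have hev : ∀ᶠ τ : ℝ in 𝓝[>] 0, 0 < τ ∧ f (x + τ • c τ) = q.ev (x + τ • c τ) := by
      have h3 : ∀ᶠ τ : ℝ in 𝓝[>] 0, 0 < σ * (M + (1 / 2) * h.B (c τ) (c τ)) := by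
        have hc' : Continuous fun τ : ℝ => σ * (M + (1 / 2) * h.B (c τ) (c τ)) := by fun_prop
        exact nhdsWithin_le_nhds (hc'.continuousAt.eventually
          (lt_mem_nhds (by
            show 0 < σ * (M + (1 / 2) * h.B (c 0) (c 0))
            rw [hc0]; exact hM)))
      filter_upwards [h3, hball c hcc, self_mem_nhdsWithin] with τ h3 h4 h5
      have h5' : (0 : ℝ) < τ := h5
      refine ⟨h5', hside _ h4 ?_⟩
      rw [h.ev_add_smul, hx]
      have h6 : h.D x (c τ) = M * τ := by
        simp only [hc, map_add, map_smul, smul_eq_mul, hw, he]; ring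
      rw [h6]
      have : σ * (0 + τ * (M * τ) + 1 / 2 * τ ^ 2 * h.B (c τ) (c τ))
          = τ ^ 2 * (σ * (M + (1 / 2) * h.B (c τ) (c τ))) := by ring
      rw [this]
      exact mul_pos (by positivity) h3
    constructor
    · have h1 := (hdf (c 0)).comp (hcurve c hcc)
      have h2 : Tendsto (fun τ : ℝ => q.D x (c τ) + (1 / 2) * τ * q.B (c τ) (c τ)) (𝓝[>] 0)
          (𝓝 (q.D x (c 0) + (1 / 2) * 0 * q.B (c 0) (c 0))) :=
        ((by fun_prop : Continuous fun τ : ℝ =>
          q.D x (c τ) + (1 / 2) * τ * q.B (c τ) (c τ)).tendsto 0).mono_left nhdsWithin_le_nhds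
      simp only [mul_zero, zero_mul, add_zero] at h2
      rw [← hc0]
      refine tendsto_nhds_unique h1 (h2.congr' ?_)
      filter_upwards [hev] with τ h3
      simp only [Function.comp]
      rw [h3.2, hq, q.ev_add_smul]
      have := h3.1
      field_simp
      ring
    · intro hMσ L hLt
      rw [← hc0] at hLt
      have h1 := hLt.comp (hcurve c hcc)
      have h2 : Tendsto (fun τ : ℝ => (1 / 2) * q.B (c τ) (c τ)) (𝓝[>] 0)
          (𝓝 ((1 / 2) * q.B (c 0) (c 0))) :=
        ((by fun_prop : Continuous fun τ : ℝ => (1 / 2) * q.B (c τ) (c τ)).tendsto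
          0).mono_left nhdsWithin_le_nhds
      rw [← hc0]
      refine tendsto_nhds_unique h1 (h2.congr' ?_)
      filter_upwards [hev] with τ h3
      simp only [Function.comp]
      have h4 : df (c τ) = q.D x (c τ) := by
        apply hfirst
        simp only [hc, map_add, map_smul, smul_eq_mul, hw, he]
        have := hMσ τ h3.1
        linarith
      rw [h3.2, hq, q.ev_add_smul, h4]
      have := h3.1
      field_simp
      ring
  have keya := key 1 qa ha (fun y hy h0 => hpos y hy (by linarith))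
  have keyb := key (-1) qb hb (fun y hy h0 => hneg y hy (by linarith))
  -- consequences on the kernel
  have hker : ∀ w, h.D x w = 0 → qa.D x w = qb.D x w ∧ qa.B w w = qb.B w w := by
    intro w hw
    set M : ℝ := |(1 / 2) * h.B w w| + 1 with hM
    have hM0 : 0 < M := by positivity
    obtain ⟨L, hL⟩ := hL w
    obtain ⟨a1, a2⟩ := keya.2 w M hw (by
      have := neg_abs_le ((1 / 2) * h.B w w)
      rw [hM]; linarith)
    obtain ⟨b1, b2⟩ := keyb.2 w (-M) hw (by
      have := le_abs_self ((1 / 2) * h.B w w)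
      rw [hM]; linarith)
    have a3 := a2 (fun τ hτ => by have := mul_pos hM0 hτ; linarith) L hL
    have b3 := b2 (fun τ hτ => by have := mul_pos hM0 hτ; linarith) L hL
    exact ⟨by rw [← a1, ← b1], by linarith⟩
  -- the factorization
  set φ := h.D x with hφ
  set lam : ℝ := qa.D x e - qb.D x e with hlam
  set ψ : E →L[ℝ] ℝ := (qa.B e - qb.B e) - ((1 / 2) * (qa.B e e - qb.B e e)) • φ with hψ
  refine ⟨φ, ψ, -φ x, lam - ψ x, fun y => ?_⟩
  set v := y - x with hv
  have hy : y = x + v := by rw [hv]; abel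
  set v0 := v - φ v • e with hv0
  have hv0k : φ v0 = 0 := by
    rw [hv0, map_sub, map_smul, smul_eq_mul, he]; ring
  obtain ⟨k1, k2⟩ := hker v0 hv0k
  have hvv : v = v0 + φ v • e := by rw [hv0]; abel
  have hDa : qa.D x v - qb.D x v = φ v * lam := by
    rw [hvv, map_add, map_add, k1, map_smul, map_smul, ← hvv]
    simp only [smul_eq_mul, hlam]
    ring
  have hexp : ∀ q : Quad E, q.B v v = q.B v0 v0 + 2 * φ v * q.B e v - (φ v) ^ 2 * q.B e e := by
    intro q
    have hs : q.B v0 e = q.B e v0 := q.symm _ _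
    have e1 : q.B v v = q.B v0 v0 + 2 * φ v * q.B e v0 + (φ v) ^ 2 * q.B e e := by
      conv_lhs => rw [hvv]
      simp only [map_add, map_smul, add_apply, FunLike.coe_smul, Pi.smul_apply, smul_eq_mul]
      rw [hs]
      ring
    have e2 : q.B e v = q.B e v0 + φ v * q.B e e := by
      conv_lhs => rw [hvv]
      simp only [map_add, map_smul, smul_eq_mul]
    rw [e1, e2]
    ring
  have h1 : qa.ev y - qb.ev y = φ v * lam + (1 / 2) * (qa.B v v - qb.B v v) := by
    rw [hy, qa.ev_add, qb.ev_add, ← hDa, ← ha, ← hb]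
    ring
  rw [h1, hexp qa, hexp qb, k2]
  have h2 : φ y + -φ x = φ v := by rw [hv, map_sub]; ring
  have h3 : ψ y + (lam - ψ x) = lam + ψ v := by rw [hv, map_sub]; ring
  rw [h2, h3]
  have h4 : ψ v = (qa.B e v - qb.B e v) - ((1 / 2) * (qa.B e e - qb.B e e)) * φ v := by
    simp only [hψ, FunLike.coe_sub, FunLike.coe_smul, Pi.sub_apply, Pi.smul_apply, smul_eq_mul]
  rw [h4]
  ring

/-! ### The local analysis in a convex open set -/

section core

variable {f : E → ℝ} {S : Set (E → ℝ)}

/-- the open set on which `f` is locally equal to `g` -/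
def U (f g : E → ℝ) : Set E := interior {x | f x = g x}

omit [NormedSpace ℝ E] in
lemma U_open (f g : E → ℝ) : IsOpen (U f g) := isOpen_interior

omit [NormedSpace ℝ E] in
lemma U_eq {g : E → ℝ} {x : E} (h : x ∈ U f g) : f x = g x :=
  (interior_subset : interior {x | f x = g x} ⊆ {x | f x = g x}) h

omit [NormedSpace ℝ E] in
lemma closure_U_eq {g : E → ℝ} (hf : Continuous f) (hg : Continuous g) {x : E}
    (h : x ∈ closure (U f g)) : f x = g x :=
  (isClosed_eq hf hg).closure_subset_iff.2 interior_subset h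

lemma U_disjoint {g g' : E → ℝ} (hg : IsQuadratic g) (hg' : IsQuadratic g') (hne : g ≠ g')
    {x : E} (h : x ∈ U f g) (h' : x ∈ U f g') : False :=
  hne (hg.eq_of_open hg' ((U_open f g).inter (U_open f g')) ⟨x, h, h'⟩
    (fun _ hy => (U_eq hy.1).symm.trans (U_eq hy.2)))

lemma connected_mem (hq : ∀ g ∈ S, IsQuadratic g) {T : Set E} (hT : IsPreconnected T)
    (hsub : T ⊆ ⋃ g ∈ S, U f g) {g : E → ℝ} (hg : g ∈ S) {y : E} (hy : y ∈ T)
    (hyg : y ∈ U f g) : T ⊆ U f g := by
  have hV : IsOpen (⋃ g' ∈ S \ {g}, U f g') :=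
    isOpen_biUnion fun g' _ => U_open f g'
  refine hT.subset_left_of_subset_union (U_open f g) hV ?_ ?_ ⟨y, hy, hyg⟩
  · rw [Set.disjoint_left]
    intro z hz hz'
    simp only [mem_iUnion, Set.mem_sdiff, mem_singleton_iff] at hz'
    obtain ⟨g', ⟨hg', hne⟩, hz''⟩ := hz'
    exact U_disjoint (hq g' hg') (hq g hg) hne hz'' hz
  · intro z hz
    have := hsub hz
    simp only [mem_iUnion] at this
    obtain ⟨g', hg', hz'⟩ := this
    by_cases h : g' = g
    · left; rw [← h]; exact hz'
    · right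
      simp only [mem_iUnion, Set.mem_sdiff, mem_singleton_iff]
      exact ⟨g', ⟨hg', h⟩, hz'⟩

/-- Near a regular zero `x` of `h`, if all the bad points are zeros of `h`, then `f` is a single
quadratic function on each side. -/
lemma exists_sides (hq : ∀ g ∈ S, IsQuadratic g) (h : Quad E) {x e : E} (hx : h.ev x = 0)
    (he : h.D x e = 1) {ρ : ℝ} (hρ : 0 < ρ)
    (hgood : ∀ y ∈ Metric.ball x ρ, h.ev y ≠ 0 → y ∈ ⋃ g ∈ S, U f g) :
    ∃ r > 0, r ≤ ρ ∧ (∃ g ∈ S, x ∈ closure (U f g) ∧
      ∀ y ∈ Metric.ball x r, 0 < h.ev y → y ∈ U f g) ∧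
      (∃ g ∈ S, x ∈ closure (U f g) ∧ ∀ y ∈ Metric.ball x r, h.ev y < 0 → y ∈ U f g) := by
  -- choice of the step
  obtain ⟨s, hs, hs1, hs2⟩ : ∃ s : ℝ, 0 < s ∧ s * ‖e‖ < ρ / 2 ∧ s * |h.B e e| ≤ 1 / 2 := by
    refine ⟨min (ρ / (4 * (‖e‖ + 1))) (1 / (2 * (|h.B e e| + 1))), ?_, ?_, ?_⟩
    · positivity
    · calc _ ≤ ρ / (4 * (‖e‖ + 1)) * ‖e‖ := by
            gcongr; exact min_le_left _ _
        _ ≤ ρ / (4 * (‖e‖ + 1)) * (‖e‖ + 1) := by gcongr; linarith
        _ = ρ / 4 := by field_simp
        _ < ρ / 2 := by linarith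
    · calc _ ≤ 1 / (2 * (|h.B e e| + 1)) * |h.B e e| := by
            gcongr; exact min_le_right _ _
        _ ≤ 1 / (2 * (|h.B e e| + 1)) * (|h.B e e| + 1) := by gcongr; linarith
        _ = 1 / 2 := by field_simp
  -- choice of the radius
  have hev : ∀ᶠ y in 𝓝 x, |h.ev y| < s / 8 ∧ |h.D y e - 1| < 1 / 2 := by
    have c1 : Continuous fun y => |h.ev y| := h.continuous_ev.abs
    have c2 : Continuous fun y => |h.D y e - 1| := by unfold Quad.D; fun_prop
    refine (c1.continuousAt.eventually (gt_mem_nhds ?_)).and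
      (c2.continuousAt.eventually (gt_mem_nhds ?_))
    · show |h.ev x| < s / 8
      rw [hx, abs_zero]; positivity
    · show |h.D x e - 1| < 1 / 2
      rw [he]; norm_num
  obtain ⟨r0, hr0, hb⟩ := Metric.eventually_nhds_iff_ball.1 hev
  set r := min r0 (ρ / 2) with hr
  have hrpos : 0 < r := by positivity
  have hrρ : r ≤ ρ / 2 := min_le_right _ _
  have hbr : ∀ y ∈ Metric.ball x r, |h.ev y| < s / 8 ∧ |h.D y e - 1| < 1 / 2 :=
    fun y hy => hb y (Metric.ball_subset_ball (min_le_left _ _) hy)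
  refine ⟨r, hrpos, by linarith, ?_⟩
  -- the points `y + σ t e`
  have hin : ∀ σ : ℝ, |σ| = 1 → ∀ y ∈ Metric.ball x r, ∀ t : ℝ, 0 ≤ t → t ≤ s →
      y + (σ * t) • e ∈ Metric.ball x ρ := by
    intro σ hσ y hy t ht0 hts
    rw [Metric.mem_ball, dist_eq_norm] at hy ⊢
    have : y + (σ * t) • e - x = (y - x) + (σ * t) • e := by abel
    rw [this]
    calc _ ≤ ‖y - x‖ + ‖(σ * t) • e‖ := norm_add_le _ _
      _ = ‖y - x‖ + t * ‖e‖ := by rw [norm_smul, Real.norm_eq_abs, abs_mul, hσ, one_mul,
            abs_of_nonneg ht0]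
      _ ≤ ‖y - x‖ + s * ‖e‖ := by gcongr
      _ < ρ := by linarith
  have hval : ∀ σ : ℝ, |σ| = 1 → ∀ y ∈ Metric.ball x r, ∀ t : ℝ, 0 ≤ t → t ≤ s →
      σ * h.ev y + t / 4 ≤ σ * h.ev (y + (σ * t) • e) := by
    intro σ hσ y hy t ht0 hts
    rw [h.ev_add_smul]
    have hσ2 : σ ^ 2 = 1 := by rw [← sq_abs, hσ, one_pow]
    have h1 := (abs_lt.1 (hbr y hy).2).1
    have h2 : t * |h.B e e| ≤ 1 / 2 := by
      calc _ ≤ s * |h.B e e| := by gcongr
        _ ≤ 1 / 2 := hs2
    have h3 : -(1 / 4 * t) ≤ 1 / 2 * t ^ 2 * (σ * h.B e e) := by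
      have h4 : |σ * h.B e e| = |h.B e e| := by rw [abs_mul, hσ, one_mul]
      have h5 := neg_abs_le (σ * h.B e e)
      rw [h4] at h5
      nlinarith [mul_nonneg ht0 (sub_nonneg.2 h2), mul_nonneg (mul_nonneg ht0 ht0)
        (by linarith : (0 : ℝ) ≤ σ * h.B e e + |h.B e e|)]
    have h6 : σ * (h.ev y + σ * t * h.D y e + 1 / 2 * (σ * t) ^ 2 * h.B e e)
        = σ * h.ev y + σ ^ 2 * (t * h.D y e) + σ ^ 2 * (1 / 2 * t ^ 2 * (σ * h.B e e)) := by ring
    rw [h6, hσ2]
    nlinarith
  have main : ∀ σ : ℝ, |σ| = 1 → ∃ g ∈ S, x ∈ closure (U f g) ∧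
      ∀ y ∈ Metric.ball x r, 0 < σ * h.ev y → y ∈ U f g := by
    intro σ hσ
    have hσ0 : σ ≠ 0 := by intro h0; rw [h0] at hσ; simp at hσ
    have hT : Metric.ball (x + (σ * s) • e) r ⊆ ⋃ g ∈ S, U f g := by
      intro z hz
      have hz' : z - (σ * s) • e ∈ Metric.ball x r := by
        rw [Metric.mem_ball, dist_eq_norm] at hz ⊢
        convert hz using 2
        abel
      have hz2 := hin σ hσ _ hz' s hs.le le_rfl
      have hz3 := hval σ hσ _ hz' s hs.le le_rfl
      rw [sub_add_cancel] at hz2 hz3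
      refine hgood z hz2 ?_
      intro h0
      rw [h0, mul_zero] at hz3
      have h7 := (hbr _ hz').1
      have h8 : |σ * h.ev (z - (σ * s) • e)| < s / 8 := by rw [abs_mul, hσ, one_mul]; exact h7
      have := (abs_lt.1 h8).1
      linarith
    have hc : x + (σ * s) • e ∈ Metric.ball (x + (σ * s) • e) r := Metric.mem_ball_self hrpos
    have hc' := hT hc
    simp only [mem_iUnion] at hc'
    obtain ⟨g, hg, hcg⟩ := hc'
    have hTg := connected_mem hq (convex_ball _ _).isPreconnected hT hg hc hcg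
    have hside : ∀ y ∈ Metric.ball x r, 0 < σ * h.ev y → y ∈ U f g := by
      intro y hy hy0
      have hseg : segment ℝ y (y + (σ * s) • e) ⊆ ⋃ g ∈ S, U f g := by
        rintro z ⟨a, b, ha, hb, hab, rfl⟩
        have hz : a • y + b • (y + (σ * s) • e) = y + (σ * (b * s)) • e := by
          rw [smul_add, ← add_assoc, ← add_smul, hab, one_smul, smul_smul]
          congr 2
          ring
        have hb1 : b * s ≤ s := by nlinarith
        have hb0 : 0 ≤ b * s := by positivity
        rw [hz]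
        refine hgood _ (hin σ hσ y hy _ hb0 hb1) ?_
        intro h0
        have := hval σ hσ y hy _ hb0 hb1
        rw [h0, mul_zero] at this
        linarith
      have hend : y + (σ * s) • e ∈ U f g := by
        apply hTg
        rw [Metric.mem_ball, dist_eq_norm] at hy ⊢
        convert hy using 2
        abel
      exact connected_mem hq (convex_segment _ _).isPreconnected hseg hg
        (right_mem_segment ℝ _ _) hend (left_mem_segment ℝ _ _)
    refine ⟨g, hg, ?_, hside⟩
    -- `x` is a limit of `x + σ t e`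
    have hlim : Tendsto (fun t : ℝ => x + (σ * t) • e) (𝓝[>] 0) (𝓝 x) := by
      have hcont : Continuous fun t : ℝ => x + (σ * t) • e := by fun_prop
      have := hcont.tendsto 0
      simp only [mul_zero, zero_smul, add_zero] at this
      exact this.mono_left nhdsWithin_le_nhds
    refine mem_closure_of_tendsto hlim ?_
    have hb2 : ∀ᶠ t : ℝ in 𝓝[>] 0, x + (σ * t) • e ∈ Metric.ball x r :=
      hlim.eventually_mem (Metric.ball_mem_nhds x hrpos)
    have hb3 : ∀ᶠ t : ℝ in 𝓝[>] 0, t < s :=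
      nhdsWithin_le_nhds (gt_mem_nhds hs)
    filter_upwards [hb2, hb3, self_mem_nhdsWithin] with t ht1 ht2 ht3
    have ht3' : (0 : ℝ) < t := ht3
    apply hside _ ht1
    have := hval σ hσ x (Metric.mem_ball_self hrpos) t ht3'.le ht2.le
    rw [hx, mul_zero] at this
    linarith
  obtain ⟨ga, hga, hga1, hga2⟩ := main 1 (by simp)
  obtain ⟨gb, hgb, hgb1, hgb2⟩ := main (-1) (by simp)
  exact ⟨⟨ga, hga, hga1, fun y hy h0 => hga2 y hy (by linarith)⟩,
    ⟨gb, hgb, hgb1, fun y hy h0 => hgb2 y hy (by linarith)⟩⟩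

lemma eq_on_ball_of_sides {g : E → ℝ} (hf : Continuous f) (hg : Continuous g) (h : Quad E)
    {x e : E} (he : h.D x e = 1) {r : ℝ}
    (h1 : ∀ y ∈ Metric.ball x r, h.ev y ≠ 0 → f y = g y) :
    ∀ y ∈ Metric.ball x r, f y = g y := by
  have hdense : Dense {y | h.ev y ≠ 0} := by
    have : {y | h.ev y ≠ 0} = {y | h.ev y = 0}ᶜ := rfl
    rw [this, ← interior_eq_empty_iff_dense_compl]
    by_contra hne
    obtain ⟨z, hz⟩ := nonempty_iff_ne_empty.2 hne
    have h0 : ∀ y ∈ interior {y | h.ev y = 0}, h.ev y = 0 := fun y hy =>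
      (interior_subset : interior {y | h.ev y = 0} ⊆ _) hy
    have hB : ∀ v, h.B v v = 0 := fun v => (h.eq_zero_of_open isOpen_interior hz h0 v).1
    have hD : ∀ v, h.D z v = 0 := fun v => (h.eq_zero_of_open isOpen_interior hz h0 v).2
    have hB2 : h.B (x - z) e = 0 := by
      have e1 := hB ((x - z) + e)
      simp only [map_add, add_apply] at e1
      rw [hB, hB, h.symm e (x - z)] at e1
      linarith
    have : h.D x e = h.D z e + h.B (x - z) e := by
      have := h.D_add_smul z (x - z) 1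
      simp only [one_smul, add_sub_cancel] at this
      rw [this]
      simp only [add_apply]
    rw [he, hD, hB2] at this
    norm_num at this
  intro y hy
  have h2 := hdense.open_subset_closure_inter (Metric.isOpen_ball (x := x) (ε := r)) hy
  exact (isClosed_eq hf hg).closure_subset_iff.2 (fun z hz => h1 z hz.1 hz.2) h2

/-- **The local theorem.** On a convex open set `C` in which no pair of different quadratic
functions with splitting difference agree at a point, `f` is a single quadratic function. -/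
theorem core [CompleteSpace E] (hf : Continuous f) (hS : S.Finite)
    (hq : ∀ g ∈ S, IsQuadratic g) (htw : ∀ x, TwiceSemidifferentiableAt f x) {C : Set E}
    (hC : IsOpen C) (hconv : Convex ℝ C) (hne : C.Nonempty)
    (hsplit : ∀ g ∈ S, ∀ g' ∈ S, g ≠ g' → ∀ x ∈ C, g x = g' x → ¬ Splits g g')
    (hcov : ∀ x, ∃ g ∈ S, f x = g x) : ∃ g ∈ S, ∀ x ∈ C, f x = g x := by
  classical
  have hqc : ∀ g ∈ S, Continuous g := fun g hg => (hq g hg).continuous
  have hdense : Dense (⋃ g ∈ S, U f g) := by
    refine dense_biUnion_interior_of_closed (fun g hg => isClosed_eq hf (hqc g hg))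
      hS.countable ?_
    rw [eq_univ_iff_forall]
    intro x
    obtain ⟨g, hg, hx⟩ := hcov x
    simp only [mem_iUnion]
    exact ⟨g, hg, hx⟩
  set Bd : Set E := C \ ⋃ g ∈ S, U f g with hBd
  have memU : ∀ {y : E}, y ∈ ⋃ g ∈ S, U f g → ∃ g ∈ S, y ∈ U f g := by
    intro y hy
    simpa only [mem_iUnion, exists_prop] using hy
  rcases eq_empty_or_nonempty Bd with hB | hB
  · obtain ⟨x, hx⟩ := hne
    have hsub : C ⊆ ⋃ g ∈ S, U f g := Set.sdiff_eq_empty.1 hB
    obtain ⟨g, hg, hxg⟩ := memU (hsub hx)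
    have := connected_mem hq hconv.isPreconnected hsub hg hx hxg
    exact ⟨g, hg, fun y hy => U_eq (this hy)⟩
  exfalso
  -- a bad point with the least number of active pieces
  obtain ⟨x0, hx0, hmin⟩ : ∃ x0 ∈ Bd, ∀ y ∈ Bd,
      {g ∈ S | x0 ∈ closure (U f g)}.ncard ≤ {g ∈ S | y ∈ closure (U f g)}.ncard := by
    have hex : ∃ m : ℕ, ∃ x ∈ Bd, {g ∈ S | x ∈ closure (U f g)}.ncard = m := by
      obtain ⟨x, hx⟩ := hB
      exact ⟨_, x, hx, rfl⟩
    obtain ⟨x0, hx0, hx0'⟩ := Nat.find_spec hex
    refine ⟨x0, hx0, fun y hy => ?_⟩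
    rw [hx0']
    exact Nat.find_min' hex ⟨y, hy, rfl⟩
  set A : Set (E → ℝ) := {g ∈ S | x0 ∈ closure (U f g)} with hA
  have hAS : A ⊆ S := fun g hg => hg.1
  have hAfin : A.Finite := hS.subset hAS
  have hev : ∀ᶠ y in 𝓝 x0, y ∈ C ∧ ∀ g ∈ S, g ∉ A → y ∉ closure (U f g) := by
    refine Filter.Eventually.and (hC.eventually_mem hx0.1) ?_
    rw [Filter.eventually_all_finite hS]
    intro g hg
    by_cases hgA : g ∈ A
    · exact Eventually.of_forall fun y h => absurd hgA h
    · have h1 : x0 ∈ (closure (U f g))ᶜ := fun h => hgA ⟨hg, h⟩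
      filter_upwards [isClosed_closure.isOpen_compl.mem_nhds h1] with y hy _
      exact hy
  obtain ⟨ρ, hρ, hball⟩ := Metric.eventually_nhds_iff_ball.1 hev
  have hOC : ∀ y ∈ Metric.ball x0 ρ, y ∈ C := fun y hy => (hball y hy).1
  have hO2 : ∀ y ∈ Metric.ball x0 ρ, ∀ g ∈ S, y ∈ closure (U f g) → g ∈ A := by
    intro y hy g hg h
    by_contra hgA
    exact (hball y hy).2 g hg hgA h
  have hO3 : ∀ y ∈ Metric.ball x0 ρ, y ∈ Bd → ∀ g ∈ A, y ∈ closure (U f g) := by
    intro y hy hyB g hg
    have hsub : {g ∈ S | y ∈ closure (U f g)} ⊆ A := fun g' hg' => hO2 y hy g' hg'.1 hg'.2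
    have heq := Set.eq_of_subset_of_ncard_le hsub (hmin y hyB) hAfin
    rw [← heq] at hg
    exact hg.2
  have hO4 : ∀ y ∈ Metric.ball x0 ρ, y ∉ Bd → ∃ g ∈ A, y ∈ U f g := by
    intro y hy hyB
    have : y ∈ ⋃ g ∈ S, U f g := by
      by_contra h
      exact hyB ⟨hOC y hy, h⟩
    obtain ⟨g, hg, hyg⟩ := memU this
    exact ⟨g, hO2 y hy g hg (subset_closure hyg), hyg⟩
  have hO5 : ∀ y ∈ Metric.ball x0 ρ, y ∈ Bd → ∀ g ∈ A, f y = g y := fun y hy hyB g hg =>
    closure_U_eq hf (hqc g (hAS hg)) (hO3 y hy hyB g hg)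
  have hx0b : x0 ∈ Metric.ball x0 ρ := Metric.mem_ball_self hρ
  -- two different active pieces
  obtain ⟨g1, hg1⟩ : ∃ g1, g1 ∈ A := by
    obtain ⟨y, hy, hyU⟩ := hdense.inter_open_nonempty _ Metric.isOpen_ball ⟨x0, hx0b⟩
    obtain ⟨g, hg, hyg⟩ := memU hyU
    exact ⟨g, hO2 y hy g hg (subset_closure hyg)⟩
  obtain ⟨g2, hg2, hg12⟩ : ∃ g2 ∈ A, g2 ≠ g1 := by
    by_contra hcon
    push Not at hcon
    have h1 : Metric.ball x0 ρ ⊆ {x | f x = g1 x} := by
      intro y hy
      by_cases hyB : y ∈ Bd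
      · exact hO5 y hy hyB g1 hg1
      · obtain ⟨g, hg, hyg⟩ := hO4 y hy hyB
        rw [hcon g hg] at hyg
        exact U_eq hyg
    have h2 : x0 ∈ U f g1 := interior_maximal h1 Metric.isOpen_ball hx0b
    apply hx0.2
    simp only [mem_iUnion]
    exact ⟨g1, hAS hg1, h2⟩
  by_cases hcase : ∃ x1 ∈ Metric.ball x0 ρ, x1 ∈ Bd ∧ ∃ g ∈ A, ∃ g' ∈ A, ∃ h : Quad E,
      (∀ x, g x - g' x = h.ev x) ∧ h.D x1 ≠ 0
  · -- a regular interface point
    obtain ⟨x1, hx1, hx1B, g, hg, g', hg', h, hh, hD⟩ := hcase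
    obtain ⟨e0, he0⟩ : ∃ e0, h.D x1 e0 ≠ 0 := by
      by_contra hcon
      push Not at hcon
      exact hD (ContinuousLinearMap.ext hcon)
    set e : E := (h.D x1 e0)⁻¹ • e0 with he
    have he1 : h.D x1 e = 1 := by
      rw [he, map_smul, smul_eq_mul, inv_mul_cancel₀ he0]
    have hzero : ∀ y ∈ Metric.ball x0 ρ, y ∈ Bd → h.ev y = 0 := by
      intro y hy hyB
      rw [← hh, ← hO5 y hy hyB g hg, ← hO5 y hy hyB g' hg', sub_self]
    obtain ⟨ρ', hρ', hsub⟩ := Metric.mem_nhds_iff.1 (Metric.isOpen_ball.mem_nhds hx1)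
    have hgood : ∀ y ∈ Metric.ball x1 ρ', h.ev y ≠ 0 → y ∈ ⋃ g ∈ S, U f g := by
      intro y hy hy0
      by_contra hcon
      exact hy0 (hzero y (hsub hy) ⟨hOC y (hsub hy), hcon⟩)
    obtain ⟨r, hr, hrρ, ⟨ga, hga, hga1, hga2⟩, ⟨gb, hgb, hgb1, hgb2⟩⟩ :=
      exists_sides hq h (hzero x1 hx1 hx1B) he1 hρ' hgood
    have hgab : ga ≠ gb := by
      intro hab
      have h1 : ∀ y ∈ Metric.ball x1 r, h.ev y ≠ 0 → f y = ga y := by
        intro y hy hy0
        rcases lt_or_gt_of_ne hy0 with h2 | h2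
        · rw [hab]; exact U_eq (hgb2 y hy h2)
        · exact U_eq (hga2 y hy h2)
      have h2 := eq_on_ball_of_sides hf (hqc ga hga) h he1 h1
      have h3 : x1 ∈ U f ga := interior_maximal (fun y hy => h2 y hy) Metric.isOpen_ball
        (Metric.mem_ball_self hr)
      apply hx1B.2
      simp only [mem_iUnion]
      exact ⟨ga, hga, h3⟩
    obtain ⟨qa, hqa⟩ := (hq ga hga).exists_quad
    obtain ⟨qb, hqb⟩ := (hq gb hgb).exists_quad
    have hfa : f x1 = ga x1 := closure_U_eq hf (hqc ga hga) hga1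
    have hfb : f x1 = gb x1 := closure_U_eq hf (hqc gb hgb) hgb1
    obtain ⟨a, a', β, β', hab⟩ := splits_of_interface (htw x1) h qa qb (hzero x1 hx1 hx1B) he1
      (by rw [hfa, hqa]) (by rw [hfb, hqb]) hr
      (fun y hy h0 => by rw [← hqa]; exact U_eq (hga2 y hy h0))
      (fun y hy h0 => by rw [← hqb]; exact U_eq (hgb2 y hy h0))
    refine hsplit ga hga gb hgb hgab x1 (hOC x1 hx1) (by rw [← hfa, ← hfb])
      ⟨a, a', β, β', fun y => ?_⟩
    rw [hqa, hqb, hab]
  · -- all gradients vanish at the bad points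
    push Not at hcase
    obtain ⟨h, hh⟩ := ((hq g1 (hAS hg1)).sub (hq g2 (hAS hg2))).exists_quad
    have hh' : ∀ x, g1 x - g2 x = h.ev x := hh
    have hDz : ∀ y ∈ Metric.ball x0 ρ, y ∈ Bd → h.D y = 0 := fun y hy hyB =>
      hcase y hy hyB g1 hg1 g2 hg2 h hh'
    have hev0 : h.ev x0 = 0 := by
      rw [← hh', ← hO5 x0 hx0b hx0 g1 hg1, ← hO5 x0 hx0b hx0 g2 hg2, sub_self]
    -- open sets where `f = g1`, `f = g2`
    have hopen : ∀ g ∈ A, ∃ y, y ∈ Metric.ball x0 ρ ∩ U f g := fun g hg =>
      mem_closure_iff.1 hg.2 _ Metric.isOpen_ball hx0b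
    have hlocal : ∀ g ∈ A, ∀ y ∈ Metric.ball x0 ρ ∩ U f g, ∀ v : E, ∃ t : ℝ, t ≠ 0 ∧
        y + t • v ∈ Metric.ball x0 ρ ∩ U f g := by
      intro g hg y hy v
      have hc : Continuous fun t : ℝ => y + t • v := by fun_prop
      have h1 : ∀ᶠ t : ℝ in 𝓝 0, y + t • v ∈ Metric.ball x0 ρ ∩ U f g := by
        apply hc.continuousAt.eventually_mem
        simpa using (Metric.isOpen_ball.inter (U_open f g)).mem_nhds hy
      obtain ⟨ε, hε, hb⟩ := Metric.eventually_nhds_iff_ball.1 h1
      exact ⟨ε / 2, by positivity, hb _ (by simp [abs_of_pos hε]; linarith)⟩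
    -- a point of `U f g2` with nonzero gradient
    obtain ⟨b, hb, hbD⟩ : ∃ b ∈ Metric.ball x0 ρ ∩ U f g2, h.D b ≠ 0 := by
      by_contra hcon
      push Not at hcon
      obtain ⟨y, hy⟩ := hopen g2 hg2
      have hB0 : ∀ v, h.B v = 0 := by
        intro v
        obtain ⟨t, ht, hyt⟩ := hlocal g2 hg2 y hy v
        have e1 := h.D_add_smul y v t
        rw [hcon _ hyt, hcon _ hy, zero_add] at e1
        rcases smul_eq_zero.1 e1.symm with h1 | h1
        · exact absurd h1 ht
        · exact h1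
      have hD0 : h.b = 0 := by
        have := hDz x0 hx0b hx0
        rw [Quad.D, hB0, zero_add] at this
        exact this
      apply hg12
      funext z
      have e1 : h.ev z = h.ev x0 := by
        simp only [Quad.ev, hB0, hD0, zero_apply]
      rw [hev0, ← hh'] at e1
      linarith
    have hcone : ∀ a ∈ Metric.ball x0 ρ ∩ U f g1, ∃ μ : ℝ, ∀ w,
        h.B (a - b) w = μ * h.D b w := by
      intro a ha
      have hex : ∃ z ∈ segment ℝ b a, z ∈ Bd := by
        by_contra hcon
        push Not at hcon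
        have hsub : segment ℝ b a ⊆ ⋃ g ∈ S, U f g := by
          intro z hz
          have hzb : z ∈ Metric.ball x0 ρ := (convex_ball x0 ρ).segment_subset hb.1 ha.1 hz
          obtain ⟨g, hg, hzg⟩ := hO4 z hzb (hcon z hz)
          simp only [mem_iUnion]
          exact ⟨g, hAS hg, hzg⟩
        have h1 := connected_mem hq (convex_segment _ _).isPreconnected hsub (hAS hg2)
          (left_mem_segment ℝ b a) hb.2
        exact U_disjoint (hq g2 (hAS hg2)) (hq g1 (hAS hg1)) hg12
          (h1 (right_mem_segment ℝ b a)) ha.2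
      obtain ⟨z, hz, hzB⟩ := hex
      have hzb : z ∈ Metric.ball x0 ρ := (convex_ball x0 ρ).segment_subset hb.1 ha.1 hz
      rw [segment_eq_image'] at hz
      obtain ⟨t, ht, rfl⟩ := hz
      have e1 := h.D_add_smul b (a - b) t
      simp only at hzb hzB e1
      rw [hDz _ hzb hzB] at e1
      have ht0 : t ≠ 0 := by
        intro h0
        rw [h0, zero_smul, add_zero] at e1
        exact hbD e1.symm
      refine ⟨-t⁻¹, fun w => ?_⟩
      have e2 := DFunLike.congr_fun e1 w
      simp only [zero_apply, add_apply, FunLike.coe_smul, Pi.smul_apply, smul_eq_mul] at e2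
      field_simp
      linarith
    have hrank : ∀ v, ∃ μ : ℝ, ∀ w, h.B v w = μ * h.D b w := by
      intro v
      obtain ⟨a, ha⟩ := hopen g1 hg1
      obtain ⟨t, ht, hat⟩ := hlocal g1 hg1 a ha v
      obtain ⟨μ1, h1⟩ := hcone a ha
      obtain ⟨μ2, h2⟩ := hcone _ hat
      refine ⟨t⁻¹ * (μ2 - μ1), fun w => ?_⟩
      have e1 : h.B (a + t • v - b) w = h.B (a - b) w + t * h.B v w := by
        have : a + t • v - b = (a - b) + t • v := by abel
        rw [this, map_add, map_smul]
        simp only [add_apply, FunLike.coe_smul, Pi.smul_apply, smul_eq_mul]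
      rw [h1, h2] at e1
      field_simp
      linarith
    set φ := h.D b with hφ
    obtain ⟨w0, hw0⟩ : ∃ w0, φ w0 = 1 := by
      obtain ⟨e0, he0⟩ : ∃ e0, φ e0 ≠ 0 := by
        by_contra hcon
        push Not at hcon
        exact hbD (ContinuousLinearMap.ext hcon)
      exact ⟨(φ e0)⁻¹ • e0, by rw [map_smul, smul_eq_mul, inv_mul_cancel₀ he0]⟩
    obtain ⟨μ0, hμ0⟩ := hrank w0
    have hform : ∀ v w, h.B v w = μ0 * φ v * φ w := by
      intro v w
      obtain ⟨μ, hμ⟩ := hrank v
      have e1 : μ = μ0 * φ v := by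
        have e2 := h.symm v w0
        rw [hμ, hμ0, hw0, mul_one] at e2
        exact e2
      rw [hμ, e1]
    refine hsplit g1 (hAS hg1) g2 (hAS hg2) (Ne.symm hg12) x0 hx0.1
      (by rw [← hO5 x0 hx0b hx0 g1 hg1, ← hO5 x0 hx0b hx0 g2 hg2])
      ⟨((1 / 2) * μ0) • φ, φ, -((1 / 2) * μ0) * φ x0, -φ x0, fun y => ?_⟩
    have e1 := h.ev_add x0 (y - x0)
    rw [add_sub_cancel, hev0, hDz x0 hx0b hx0, hform, map_sub φ] at e1
    rw [hh', e1]
    simp only [zero_apply, FunLike.coe_smul, Pi.smul_apply, smul_eq_mul]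
    ring

end core

/-! ### The global theorem -/

/-- an affine function that is not identically zero is nonzero on an open dense set -/
lemma affine_open_dense (a : E →L[ℝ] ℝ) (β : ℝ) (h : a ≠ 0 ∨ β ≠ 0) :
    IsOpen {x | a x + β ≠ 0} ∧ Dense {x | a x + β ≠ 0} := by
  have hc : Continuous fun x => a x + β := by fun_prop
  refine ⟨isOpen_ne_fun hc continuous_const, ?_⟩
  by_cases ha : a = 0
  · have hβ : β ≠ 0 := by
      rcases h with h | h
      · exact absurd ha h
      · exact h
    have : {x : E | a x + β ≠ 0} = univ := by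
      ext x; simp [ha, hβ]
    rw [this]
    exact dense_univ
  · obtain ⟨e, he⟩ : ∃ e, a e ≠ 0 := by
      by_contra hcon
      push Not at hcon
      exact ha (ContinuousLinearMap.ext hcon)
    intro x
    by_cases hx : a x + β = 0
    · have hlim : Tendsto (fun t : ℝ => x + t • e) (𝓝[≠] 0) (𝓝 x) := by
        have hcont : Continuous fun t : ℝ => x + t • e := by fun_prop
        have := hcont.tendsto 0
        simp only [zero_smul, add_zero] at this
        exact this.mono_left nhdsWithin_le_nhds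
      refine mem_closure_of_tendsto hlim ?_
      filter_upwards [self_mem_nhdsWithin] with t ht
      have ht' : t ≠ 0 := ht
      show a (x + t • e) + β ≠ 0
      rw [map_add, map_smul, smul_eq_mul]
      have : a x + t * a e + β = t * a e := by linarith
      rw [this]
      exact mul_ne_zero ht' he
    · exact subset_closure hx

theorem pq_imp_plq [CompleteSpace E] {f : E → ℝ} (hf : IsPQ f)
    (htw : ∀ x, TwiceSemidifferentiableAt f x) : IsPLQ f := by
  classical
  obtain ⟨hcont, I, q, hq, hcov⟩ := hf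
  -- the arrangement: for every splitting pair the two affine factors
  have hex : ∀ p : Fin I × Fin I, ∃ (a a' : E →L[ℝ] ℝ) (β β' : ℝ),
      (a ≠ 0 ∨ β ≠ 0) ∧ (a' ≠ 0 ∨ β' ≠ 0) ∧
      (q p.1 ≠ q p.2 → Splits (q p.1) (q p.2) →
        ∀ x, q p.1 x - q p.2 x = (a x + β) * (a' x + β')) := by
    intro p
    by_cases h : q p.1 ≠ q p.2 ∧ Splits (q p.1) (q p.2)
    · obtain ⟨a, a', β, β', hs⟩ := h.2
      refine ⟨a, a', β, β', ?_, ?_, fun _ _ => hs⟩
      · by_contra hcon
        push Not at hcon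
        apply h.1
        funext x
        have := hs x
        rw [hcon.1, hcon.2] at this
        simp only [zero_apply, zero_add, zero_mul] at this
        linarith
      · by_contra hcon
        push Not at hcon
        apply h.1
        funext x
        have := hs x
        rw [hcon.1, hcon.2] at this
        simp only [zero_apply, zero_add, mul_zero] at this
        linarith
    · exact ⟨0, 0, 1, 1, Or.inr one_ne_zero, Or.inr one_ne_zero, fun h1 h2 => absurd ⟨h1, h2⟩ h⟩
  choose a a' β β' ha ha' hs using hex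
  -- index set of the arrangement
  set J := (Fin I × Fin I) × Bool with hJ
  set l : J → E → ℝ := fun j x => if j.2 then a j.1 x + β j.1 else a' j.1 x + β' j.1 with hl
  have hlform : ∀ j, ∃ (α : E →L[ℝ] ℝ) (γ : ℝ), (α ≠ 0 ∨ γ ≠ 0) ∧ ∀ x, l j x = α x + γ := by
    rintro ⟨p, b⟩
    cases b
    · exact ⟨a' p, β' p, ha' p, fun x => by simp [hl]⟩
    · exact ⟨a p, β p, ha p, fun x => by simp [hl]⟩
  choose α γ hαγ hlα using hlform
  -- the cells
  set P : (J → Bool) → Set E := fun σ => {x | ∀ j, 0 ≤ (if σ j then l j x else -l j x)} with hP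
  set Cl : (J → Bool) → Set E := fun σ => {x | ∀ j, 0 < (if σ j then l j x else -l j x)} with hCl
  have hcomb : ∀ j (x c : E) (ε : ℝ), l j (x + ε • (c - x)) = (1 - ε) * l j x + ε * l j c := by
    intro j x c ε
    rw [hlα, hlα, hlα, map_add, map_smul, map_sub, smul_eq_mul]
    ring
  have hlc : ∀ j, Continuous (l j) := by
    intro j
    have : l j = fun x => α j x + γ j := funext (hlα j)
    rw [this]
    fun_prop
  have hClopen : ∀ σ, IsOpen (Cl σ) := by
    intro σ
    have : Cl σ = ⋂ j, {x | 0 < (if σ j then l j x else -l j x)} := by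
      ext x; simp [hCl]
    rw [this]
    refine isOpen_iInter_of_finite fun j => isOpen_lt continuous_const ?_
    by_cases h : σ j
    · simp only [h, if_true]; exact hlc j
    · simp only [h]; exact (hlc j).neg
  have hClconv : ∀ σ, Convex ℝ (Cl σ) := by
    intro σ x hx y hy s t hs0 ht0 hst j
    have e1 : l j (s • x + t • y) = s * l j x + t * l j y := by
      rw [hlα, hlα, hlα, map_add, map_smul, map_smul, smul_eq_mul, smul_eq_mul]
      have : s * γ j + t * γ j = γ j := by rw [← add_mul, hst, one_mul]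
      linarith
    have h1 := hx j
    have h2 := hy j
    rw [e1]
    by_cases h : σ j
    · simp only [h, if_true] at h1 h2 ⊢
      rcases hs0.eq_or_lt with h0 | h0
      · rw [← h0] at hst ⊢
        have : t = 1 := by linarith
        rw [this]; linarith
      · have := mul_pos h0 h1
        have := mul_nonneg ht0 h2.le
        linarith
    · simp only [h] at h1 h2 ⊢
      simp only [Bool.false_eq_true, if_false] at h1 h2 ⊢
      rcases hs0.eq_or_lt with h0 | h0
      · rw [← h0] at hst ⊢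
        have : t = 1 := by linarith
        rw [this]; linarith
      · have := mul_pos h0 h1
        have := mul_nonneg ht0 h2.le
        linarith
  -- on every nonempty cell `f` is one of the `q i`
  have hcell : ∀ σ, (Cl σ).Nonempty → ∃ i, ∀ x ∈ P σ, f x = q i x := by
    intro σ hne
    have hcore := core (f := f) (S := Set.range q) hcont (Set.finite_range q)
      (by rintro _ ⟨i, rfl⟩; exact hq i) htw (hClopen σ) (hClconv σ) hne
      (by
        rintro _ ⟨i, rfl⟩ _ ⟨j, rfl⟩ hij x hx hxe hsp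
        have h1 := hs (i, j) hij hsp x
        simp only at h1
        rw [hxe, sub_self] at h1
        have h2 := hx ((i, j), true)
        have h3 := hx ((i, j), false)
        have h2' : a (i, j) x + β (i, j) ≠ 0 := by
          intro h0
          simp only [hl, if_true, h0] at h2
          simp at h2
        have h3' : a' (i, j) x + β' (i, j) ≠ 0 := by
          intro h0
          simp only [hl, Bool.false_eq_true, if_false, h0] at h3
          simp at h3
        exact mul_ne_zero h2' h3' h1.symm)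
      (fun x => by
        obtain ⟨i, hi⟩ := hcov x
        exact ⟨q i, ⟨i, rfl⟩, hi⟩)
    obtain ⟨_, ⟨i, rfl⟩, hi⟩ := hcore
    refine ⟨i, fun x hx => ?_⟩
    obtain ⟨c, hc⟩ := hne
    have hlim : Tendsto (fun ε : ℝ => x + ε • (c - x)) (𝓝[>] 0) (𝓝 x) := by
      have hcont' : Continuous fun ε : ℝ => x + ε • (c - x) := by fun_prop
      have := hcont'.tendsto 0
      simp only [zero_smul, add_zero] at this
      exact this.mono_left nhdsWithin_le_nhds
    have hmem : x ∈ closure (Cl σ) := by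
      refine mem_closure_of_tendsto hlim ?_
      have h1 : ∀ᶠ ε : ℝ in 𝓝[>] 0, ε < 1 := nhdsWithin_le_nhds (gt_mem_nhds one_pos)
      filter_upwards [h1, self_mem_nhdsWithin] with ε h1 h2 j
      have h2' : (0 : ℝ) < ε := h2
      rw [hcomb]
      have h3 := hx j
      have h4 := hc j
      by_cases h : σ j
      · simp only [h, if_true] at h3 h4 ⊢
        have := mul_pos h2' h4
        have := mul_nonneg (by linarith : (0 : ℝ) ≤ 1 - ε) h3
        linarith
      · simp only [h, Bool.false_eq_true, if_false] at h3 h4 ⊢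
        have := mul_pos h2' h4
        have := mul_nonneg (by linarith : (0 : ℝ) ≤ 1 - ε) h3
        linarith
    exact (isClosed_eq hcont (hq i).continuous).closure_subset_iff.2 (fun z hz => hi z hz) hmem
  -- the cells with nonempty interior cover
  obtain ⟨c, hc⟩ : ∃ c : E, ∀ j, l j c ≠ 0 := by
    have h1 : Dense (⋂ j, {x | l j x ≠ 0}) := by
      refine dense_iInter_of_isOpen (fun j => ?_) (fun j => ?_)
      · have := (affine_open_dense (α j) (γ j) (hαγ j)).1
        simpa only [hlα] using this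
      · have := (affine_open_dense (α j) (γ j) (hαγ j)).2
        simpa only [hlα] using this
    obtain ⟨c, hc⟩ := h1.nonempty
    exact ⟨c, fun j => by simpa using mem_iInter.1 hc j⟩
  have hcover : ∀ x : E, ∃ σ, (Cl σ).Nonempty ∧ x ∈ P σ := by
    intro x
    set σ : J → Bool := fun j => if l j x = 0 then decide (0 < l j c) else decide (0 < l j x)
      with hσ
    refine ⟨σ, ?_, ?_⟩
    · have hev : ∀ᶠ ε : ℝ in 𝓝[>] 0, ∀ j,
          0 < (if σ j then l j (x + ε • (c - x)) else -l j (x + ε • (c - x))) := by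
        rw [eventually_all]
        intro j
        by_cases h0 : l j x = 0
        · filter_upwards [self_mem_nhdsWithin] with ε hε
          have hε' : (0 : ℝ) < ε := hε
          rw [hcomb, h0, mul_zero, zero_add]
          rcases lt_or_gt_of_ne (hc j) with h1 | h1
          · have : σ j = false := by simp [hσ, h0, h1.le]
            simp only [this, Bool.false_eq_true, if_false]
            have := mul_pos_of_neg_of_neg (neg_lt_zero.2 hε') h1
            linarith
          · have : σ j = true := by simp [hσ, h0, h1]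
            simp only [this, if_true]
            exact mul_pos hε' h1
        · have hcj : Continuous fun ε : ℝ => l j (x + ε • (c - x)) :=
            (hlc j).comp (by fun_prop)
          rcases lt_or_gt_of_ne h0 with h1 | h1
          · have hσj : σ j = false := by simp [hσ, h0, h1.le]
            simp only [hσj, Bool.false_eq_true, if_false]
            have : ∀ᶠ ε : ℝ in 𝓝 0, l j (x + ε • (c - x)) < 0 :=
              hcj.continuousAt.eventually (gt_mem_nhds (by simpa using h1))
            filter_upwards [nhdsWithin_le_nhds this] with ε hε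
            linarith
          · have hσj : σ j = true := by simp [hσ, h0, h1]
            simp only [hσj, if_true]
            exact nhdsWithin_le_nhds (hcj.continuousAt.eventually
              (lt_mem_nhds (by simpa using h1)))
      obtain ⟨ε, hε⟩ := hev.exists
      exact ⟨_, hε⟩
    · intro j
      by_cases h0 : l j x = 0
      · simp [h0]
      · rcases lt_or_gt_of_ne h0 with h1 | h1
        · have hσj : σ j = false := by simp [hσ, h0, h1.le]
          simp only [hσj, Bool.false_eq_true, if_false]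
          linarith
        · have hσj : σ j = true := by simp [hσ, h0, h1]
          simp only [hσj, if_true]
          exact h1.le
  -- assemble
  have hpoly : ∀ σ, IsPolyhedron (P σ) := by
    intro σ
    set eJ := Fintype.equivFin J
    refine ⟨Fintype.card J, fun k => if σ (eJ.symm k) then -α (eJ.symm k) else α (eJ.symm k),
      fun k => if σ (eJ.symm k) then γ (eJ.symm k) else -γ (eJ.symm k), ?_⟩
    ext x
    constructor
    · intro hx k
      have h1 := hx (eJ.symm k)
      rw [hlα] at h1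
      by_cases h : σ (eJ.symm k)
      · simp only [h, if_true] at h1 ⊢
        simp only [neg_apply]
        linarith
      · simp only [h, Bool.false_eq_true, if_false] at h1 ⊢
        linarith
    · intro hx j
      have h1 := hx (eJ j)
      simp only [Equiv.symm_apply_apply] at h1
      rw [hlα]
      by_cases h : σ j
      · simp only [h, if_true] at h1 ⊢
        simp only [neg_apply] at h1
        linarith
      · simp only [h, Bool.false_eq_true, if_false] at h1 ⊢
        linarith
  set K := {σ : J → Bool // (Cl σ).Nonempty} with hK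
  have hidx : ∀ k : K, ∃ i, ∀ x ∈ P k.1, f x = q i x := fun k => hcell k.1 k.2
  choose idx hidx using hidx
  set eK := Fintype.equivFin K
  refine ⟨Fintype.card K, fun m => q (idx (eK.symm m)), fun m => P (eK.symm m).1,
    fun m => hq _, fun m => hpoly _, ?_, fun m x hx => hidx _ x hx⟩
  rw [eq_univ_iff_forall]
  intro x
  obtain ⟨σ, hσ, hx⟩ := hcover x
  rw [mem_iUnion]
  refine ⟨eK ⟨σ, hσ⟩, ?_⟩
  rw [Equiv.symm_apply_apply]
  exact hx

/-- **Q1 holds.** Every piecewise quadratic function `f : ℝ^n → ℝ` that is twice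
semidifferentiable at every point of `ℝ^n` is piecewise linear-quadratic. -/
theorem result : ∀ (n : ℕ) (f : EuclideanSpace ℝ (Fin n) → ℝ), IsPQ f →
    (∀ x, TwiceSemidifferentiableAt f x) → IsPLQ f :=
  fun _ _ hf htw => pq_imp_plq hf htw

end Pool.Agent.Results.MP_83d7ff_an.TwiceSemidifferentiable
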